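import Pool.Agent.Results.MP_1bdb59_nt.TypicalSequences
import Pool.Agent.U125.NO.Seq

/-!
# MP_1bdb59_nt: the Selmer group conjecture for superelliptic curves along every normal orbit

`GoodCurves N n r S c` and `GoodTwists n r S c` are the properties of the starting result
`TypicalSequences` for the curves

* `y ^ ℓ = g_0(t) (x - g_1(t)) ⋯ (x - g_N(t))`, `ℓ ∤ N`,
* `y ^ ℓ = δ (x - g_0(t)) ⋯ (x - g_N(t))`, `ℓ ∤ N + 1`, for all `δ ≠ 0` in `k` at the same time,
* `y ^ ℓ = D(t) G(x)` for all `G` over `k(t)` which are separable, with all roots in `k(t)`, `ℓ ∤ deg G`,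

the coefficient vectors of which form the sequence `c 0, c 1, c 2, ...`: for ALL number fields `k` of degree `r` with ALL
integral bases and ALL primes `ℓ` for which `k` contains the roots of unity of order `ℓ`, the Selmer group conjecture
at `ℓ` for the Jacobian over `k(t)` holds for all the times `m ∈ S M` up to a proportion which tends to zero.

**Theorem.** They hold, with `S M = {0, ..., M - 1}`, for EVERY normal orbit `c` (`NormalOrbit`): the orbit of an
integral vector under a finite family of integral affine maps along ANY normal sequence of indices, the family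
being wide.

Examples (third part): (1) `c m = (⌊b ^ m ξ_i⌋)_i` for ANY vector `ξ` of real numbers which is normal to the base `b`;
(2) the orbit of any vector `v ≠ 0` along ANY normal word in matrices which generate the special linear group modulo
all `q` prime to some `q₀` (generators of a thin group); (3) vectors of integers whose digits are chosen from a
restricted set of vectors.

The starting result `TypicalSequences` has almost all words in (2), and sequences which are equidistributed modulo all
`q` prime to some number, which covers (1).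

Proof. The exceptional vectors are in countably many pronull sets (starting library, `N918.EQ.Sel`); normal
orbits visit a pronull set only at times of density zero (engine `Pool.Agent.U125.NO` of helper125).
-/

set_option autoImplicit false

namespace Pool.Agent.Results.MP_1bdb59_nt.NormalSequences

open MeasureTheory
open Pool.Agent.U125.NO (NormalOrbit Examples examples)
open Pool.Agent.Results.MP_1bdb59_nt.TypicalSequences (GoodCurves GoodTwists usually_of_rareIn)
open Pool.Agent.N918.EQ (RareIn rareIn_of_rarely)

theorem rareIn {ι : Type} [Fintype ι] [DecidableEq ι] {c : ℕ → ι → ℤ} (hc : NormalOrbit c)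
    {D : Set (ι → ℤ)} (hD : Pool.Agent.N24.RW.ProNull D) : RareIn Finset.range c D :=
  rareIn_of_rarely (hc.avoids (fun x => x ∈ D) hD)

/-- **Theorem.** -/
theorem result (n r : ℕ) :
    (4 ≤ n → ∀ (N : ℕ) (c : ℕ → (Fin (N + 1) × Fin (n + 1)) × Fin r → ℤ), NormalOrbit c →
      GoodCurves N n r Finset.range c) ∧
    (2 ≤ n → ∀ c : ℕ → Fin (n + 1) × Fin r → ℤ, NormalOrbit c → GoodTwists n r Finset.range c) ∧
    ∀ (κ : Type) [Fintype κ] [DecidableEq κ], Examples κ := by
  refine ⟨fun hn N c hc => ?_, fun hn c hc => ?_, fun κ _ _ => examples κ⟩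
  · have h := Pool.Agent.N918.EQ.Sel.ae_curves r N n hn (Measure.dirac ()) (fun _ : Unit => True)
      Finset.range (fun _ => c) (fun D hD => Filter.Eventually.of_forall fun _ _ => rareIn hc hD)
    rw [ae_dirac_iff (by measurability)] at h
    intro k _ _ B ℓ hℓ ζ hζ
    obtain ⟨h1, h2⟩ := h trivial k B ℓ hℓ ζ hζ
    refine ⟨fun hN => usually_of_rareIn (h1 hN) ?_, fun hN2 hN => usually_of_rareIn (h2 hN2 hN) ?_⟩
    · intro m hno hs
      exact hno ⟨hs, Pool.Agent.Y713.Jac.ShaPrimaryTrivial.tate hs⟩
    · intro m hno hs
      exact hno fun δ hδ => ⟨hs δ hδ, Pool.Agent.Y713.Jac.ShaPrimaryTrivial.tate (hs δ hδ)⟩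
  · have h := Pool.Agent.N918.EQ.Sel.ae_twists r n hn (Measure.dirac ()) (fun _ : Unit => True)
      Finset.range (fun _ => c) (fun D hD => Filter.Eventually.of_forall fun _ _ => rareIn hc hD)
    rw [ae_dirac_iff (by measurability)] at h
    intro k _ _ B ℓ hℓ ζ hζ G hG1 hG2 hG3 hn2
    refine usually_of_rareIn (h trivial k B ℓ hℓ ζ hζ G hG1 hG2 hG3 hn2) ?_
    intro m hno hs
    exact hno ⟨hs, Pool.Agent.Y713.Jac.ShaPrimaryTrivial.tate hs⟩

end Pool.Agent.Results.MP_1bdb59_nt.NormalSequences
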